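import Mathlib

namespace Pool.Agent.H.MP_b5bb8b_co

variable {A : Type} [CommRing A]

/-- The values reachable from `1` by sums and by `d ↦ d / (s + d)`. -/
inductive Gen (s : A) : A → Prop
  | one : Gen s 1
  | add {a b : A} : Gen s a → Gen s b → Gen s (a + b)
  | ext {a w : A} : Gen s a → (s + a) * w = 1 → Gen s (a * w)

lemma Gen.map {B : Type} [CommRing B] (f : A →+* B) {s a : A} (h : Gen s a) : Gen (f s) (f a) := by
  induction h with
  | one => rw [map_one]; exact Gen.one
  | add _ _ h1 h2 => rw [map_add]; exact h1.add h2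
  | ext _ hw h1 => rw [map_mul]; exact h1.ext (by rw [← map_add, ← map_mul, hw, map_one])

def U (e : A) (j : ℕ) (x : A) : Prop := ∃ d, Gen (e - 2) d ∧ e ^ j ∣ d - x

lemma U.one (e : A) (j : ℕ) : U e j 1 := ⟨1, Gen.one, by simp⟩

lemma U.add {e : A} {j : ℕ} {x y : A} (hx : U e j x) (hy : U e j y) : U e j (x + y) := by
  obtain ⟨d, h1, h2⟩ := hx
  obtain ⟨d', h1', h2'⟩ := hy
  refine ⟨d + d', h1.add h1', ?_⟩
  rw [show d + d' - (x + y) = (d - x) + (d' - y) by ring]
  exact dvd_add h2 h2'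

lemma U.congr {e : A} {j : ℕ} {x : A} (hx : U e j x) (y b : A) (h : x = y + e ^ j * b) :
    U e j y := by
  obtain ⟨d, h1, h2⟩ := hx
  refine ⟨d, h1, ?_⟩
  rw [show d - y = (d - x) + e ^ j * b by rw [h]; ring]
  exact dvd_add h2 (Dvd.intro _ rfl)

lemma U.nsm {e : A} {j : ℕ} {x : A} (hx : U e j x) (n : ℕ) : U e j (((n : A) + 1) * x) := by
  induction n with
  | zero => simpa using hx
  | succ n ih =>
    have := ih.add hx
    rwa [show ((n : A) + 1) * x + x = (((n + 1 : ℕ) : A) + 1) * x by push_cast; ring] at this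

lemma exists_inv {e : A} (he : IsNilpotent e) (b : A) : ∃ w, (-1 + e * b) * w = 1 := by
  have h1 : IsNilpotent (e * b) := (Commute.all e b).isNilpotent_mul_right he
  have h2 : IsUnit (e * b - 1) := h1.isUnit_sub_one
  obtain ⟨w, hw⟩ := h2.exists_right_inv
  exact ⟨w, by linear_combination hw⟩

lemma U.phi {e : A} (he : IsNilpotent e) {j : ℕ} {x w : A} (hx : U e (j + 1) x)
    (hw : (e - 2 + x) * w = 1) : U e (j + 1) (x * w) := by
  obtain ⟨d, h1, b, hb⟩ := hx
  obtain ⟨v, hv⟩ := exists_inv he (-(e ^ j * b * w))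
  have hd : d = x + e ^ (j + 1) * b := by linear_combination hb
  have hu : (e - 2 + d) * (-(w * v)) = 1 := by
    rw [hd]
    linear_combination hv - v * hw
  refine ⟨_, h1.ext hu, (e - 2) * w * (-(w * v)) * b, ?_⟩
  linear_combination (1 - (e - 2) * w) * hu - (1 - (e - 2) * (-(w * v))) * hw
    + ((e - 2) * w * (-(w * v))) * hb

lemma int_neg {T : ℤ → Prop} (hadd : ∀ a b, T a → T b → T (a + b)) {a c : ℤ} (ha : T a) (hc : T c)
    (h : a * c < 0) : T (-c) := by
  have nsm : ∀ x, T x → ∀ n : ℕ, T ((n + 1) * x) := by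
    intro x hx n
    induction n with
    | zero => simpa using hx
    | succ n ih =>
      have := hadd _ _ ih hx
      rwa [show ((n : ℤ) + 1) * x + x = (((n + 1 : ℕ) : ℤ) + 1) * x by push_cast; ring] at this
  have hc0 : c ≠ 0 := by rintro rfl; simp at h
  have ha0 : a ≠ 0 := by rintro rfl; simp at h
  obtain ⟨p, hp⟩ : ∃ p : ℕ, |c| = p + 1 := ⟨(|c| - 1).toNat, by have := abs_pos.mpr hc0; omega⟩
  obtain ⟨q, hq⟩ : ∃ q : ℕ, |a| = q + 1 := ⟨(|a| - 1).toNat, by have := abs_pos.mpr ha0; omega⟩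
  have h0 : |c| * a + |a| * c = 0 := by
    rcases lt_or_gt_of_ne hc0 with h1 | h1
    · have : 0 < a := by nlinarith
      rw [abs_of_neg h1, abs_of_pos this]; ring
    · have : a < 0 := by nlinarith
      rw [abs_of_pos h1, abs_of_neg this]; ring
  have h1 := hadd _ _ (nsm a ha (2 * p + 1)) (nsm c hc (2 * q))
  rw [hp, hq] at h0
  rwa [show ((2 * p + 1 : ℕ) + 1 : ℤ) * a + ((2 * q : ℕ) + 1 : ℤ) * c = -c by
    push_cast; linear_combination 2 * h0] at h1

section

variable {e : A} (he : IsNilpotent e) (hint : ∀ a : A, ∃ (n : ℤ) (b : A), a = n + e * b)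
include he hint

/-- Lifting an element known modulo `e ^ j`. -/
lemma lift {j : ℕ} (hG : ∀ a, U e j a) (a : A) : ∃ (n : ℤ), U e (j + 1) (a + n * e ^ j) := by
  obtain ⟨d, h1, b, hb⟩ := hG a
  obtain ⟨n, b', hn⟩ := hint b
  exact ⟨n, d, h1, b', by rw [hn] at hb; linear_combination hb⟩

lemma sym {j : ℕ} (hG : ∀ a, U e (j + 1) a) (c : ℤ) (hc : U e (j + 2) (c * e ^ (j + 1))) :
    U e (j + 2) (((-c : ℤ) : A) * e ^ (j + 1)) := by
  by_cases h0 : c = 0
  · subst h0; simpa using hc
  obtain ⟨w, hw⟩ := exists_inv he 1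
  obtain ⟨C, hC⟩ := lift he hint hG (-w)
  obtain ⟨m, hm⟩ : ∃ m : ℕ, |C| = m := ⟨|C|.toNat, by have := abs_nonneg C; omega⟩
  have h1 := (U.one e (j + 2)).add (hc.nsm m)
  obtain ⟨v, hv⟩ := exists_inv he (1 + ((m : A) + 1) * c * e ^ j)
  have h2 := U.phi he (w := v) h1 (by linear_combination hv)
  have h3 := h2.add hC
  have h4 : U e (j + 2) (((C - 2 * (m + 1) * c : ℤ) : A) * e ^ (j + 1)) := by
    set z : A := ((m : A) + 1) * c with hz
    have e1 : w = -1 + e * w := by linear_combination -hw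
    have e2 : v = -1 + e * ((1 + z * e ^ j) * v) := by linear_combination -hv
    refine h3.congr _ (z * (w * v + 2 * w + 2 * ((1 + z * e ^ j) * v)
      - 2 * e * w * ((1 + z * e ^ j) * v))) ?_
    push_cast
    rw [show ((m : A) + 1) * (c * e ^ (j + 1)) = z * e ^ (j + 1) by rw [hz]; ring,
      show 2 * ((m : A) + 1) * c = 2 * z by rw [hz]; ring]
    have e3 : (1 + z * e ^ (j + 1)) * v - w = (e - 2) * w * v * (z * e ^ (j + 1)) := by
      linear_combination (1 - (e - 2) * w) * hv - (1 - (e - 2) * v) * hw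
    have e4 : w * v = (-1 + e * w) * (-1 + e * ((1 + z * e ^ j) * v)) := by rw [← e1, ← e2]
    linear_combination e3 - 2 * (z * e ^ (j + 1)) * e4
  refine int_neg (T := fun n : ℤ => U e (j + 2) ((n : A) * e ^ (j + 1))) ?_ h4 hc ?_
  · intro a b ha hb
    have := ha.add hb
    push_cast
    rwa [← add_mul] at this
  · have h5 : C * c ≤ |C| * (c * c) := by
      have a1 : C * c ≤ |C| * |c| := by rw [← abs_mul]; exact le_abs_self _
      have a2 : |c| ≤ c * c := by
        have : 1 ≤ |c| := Int.one_le_abs h0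
        nlinarith [abs_mul_abs_self c]
      nlinarith [abs_nonneg C]
    have h6 : 0 < c * c := mul_self_pos.mpr h0
    rw [hm] at h5
    nlinarith

lemma neg {j : ℕ} (hG : ∀ a, U e (j + 1) a) {x : A} (hx : U e (j + 2) x) : U e (j + 2) (-x) := by
  obtain ⟨n, hn⟩ := lift he hint hG (-x)
  have h1 : U e (j + 2) (n * e ^ (j + 1)) := by
    have := hx.add hn
    rwa [show x + (-x + n * e ^ (j + 1)) = n * e ^ (j + 1) by ring] at this
  have := hn.add (sym he hint hG n h1)
  push_cast at this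
  rwa [show -x + n * e ^ (j + 1) + -n * e ^ (j + 1) = -x by ring] at this

lemma step {j : ℕ} (hG : ∀ a, U e j a) (h1 : U e (j + 1) (e ^ j)) (h2 : U e (j + 1) (-e ^ j))
    (a : A) : U e (j + 1) a := by
  have hz : ∀ n : ℤ, U e (j + 1) (n * e ^ j) := by
    intro n
    induction n using Int.induction_on with
    | zero => simpa using h1.add h2
    | succ n ih =>
      have := ih.add h1
      push_cast at this ⊢
      rwa [show (n : A) * e ^ j + e ^ j = (n + 1) * e ^ j by ring] at this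
    | pred n ih =>
      have := ih.add h2
      push_cast at this ⊢
      rwa [show -(n : A) * e ^ j + -e ^ j = (-n - 1) * e ^ j by ring] at this
  obtain ⟨n, hn⟩ := lift he hint hG a
  have := hn.add (hz (-n))
  push_cast at this
  rwa [show a + n * e ^ j + -n * e ^ j = a by ring] at this

lemma top {i : ℕ} (hG : ∀ a, U e (i + 2) a) : U e (i + 3) (e ^ (i + 2)) := by
  obtain ⟨n, hδ⟩ := lift he hint hG (e ^ (i + 1))
  obtain ⟨m, hD⟩ := lift he hint hG (1 - e)
  set δ : A := e ^ (i + 1) + n * e ^ (i + 2) with hδ'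
  set D : A := 1 - e + m * e ^ (i + 2) with hD'
  obtain ⟨w, hw⟩ := exists_inv he (m * e ^ (i + 1))
  obtain ⟨v, hv⟩ := exists_inv he (m * e ^ (i + 1) + e ^ i + n * e ^ (i + 1))
  have hw' : (e - 2 + D) * w = 1 := by rw [hD']; linear_combination hw
  have hv' : (e - 2 + (D + δ)) * v = 1 := by rw [hD', hδ']; linear_combination hv
  have h1 := ((U.phi he (hD.add hδ) hv').add (neg he hint hG (U.phi he hD hw'))).add (hδ.add hδ)
  have e1 : (D + δ) * v + -(D * w) + (δ + δ) = δ * ((e - 2) * (w * v) + 2) := by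
    linear_combination (1 - (e - 2) * w) * hv' - (1 - (e - 2) * v) * hw'
  rw [e1] at h1
  obtain ⟨r, hr⟩ : ∃ r, w = -1 + e ^ 2 * r := ⟨m * e ^ i * w, by linear_combination -hw⟩
  rcases i with _ | i
  · obtain ⟨r', hr'⟩ : ∃ r', v = -1 - e + e ^ 2 * r' :=
      ⟨(m + n) * v + v * (1 + (m + n) * e), by linear_combination (-1 - e) * hv⟩
    have h2 := neg he hint hG h1
    refine h2.congr _ (n - (1 + n * e) * (1 + (e - 2) * (-r' - r * (1 + e) + e ^ 2 * r * r'))) ?_
    rw [hδ']
    have e4 : w * v = (-1 + e ^ 2 * r) * (-1 - e + e ^ 2 * r') := by rw [← hr, ← hr']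
    rw [e4]
    ring
  · obtain ⟨r', hr'⟩ : ∃ r', v = -1 + e ^ 2 * r' :=
      ⟨(m * e ^ (i + 1) + e ^ i + n * e ^ (i + 1)) * v, by linear_combination -hv⟩
    refine h1.congr _ (n + (1 + n * e) * ((e - 2) * (-r' - r + e ^ 2 * r * r'))) ?_
    rw [hδ']
    have e4 : w * v = (-1 + e ^ 2 * r) * (-1 + e ^ 2 * r') := by rw [← hr, ← hr']
    rw [e4]
    ring

lemma all_U (j : ℕ) : ∀ a, U e j a := by
  obtain ⟨w, hw⟩ := exists_inv he 1
  have h0 : ∀ a, U e 0 a := fun a => ⟨1, Gen.one, by simp⟩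
  have hw' : (e - 2 + 1) * w = 1 := by linear_combination hw
  have h1 : ∀ a, U e 1 a := by
    refine step he hint h0 (by simpa using U.one e 1) ?_
    exact (U.phi he (U.one e (0 + 1)) hw').congr _ w (by linear_combination -hw)
  have h2 : ∀ a, U e 2 a := by
    have h3 : U e (1 + 1) (e ^ 1) := by
      have := neg he hint (j := 0) h1 ((U.phi he (U.one e (1 + 1)) hw').add (U.one e _))
      exact this.congr _ (-w) (by linear_combination (1 + e) * hw)
    exact step he hint h1 h3 (neg he hint (j := 0) h1 h3)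
  have h3 : ∀ i a, U e (i + 2) a := by
    intro i
    induction i with
    | zero => exact h2
    | succ i ih => exact step he hint ih (top he hint ih) (neg he hint ih (top he hint ih))
  rcases j with _ | _ | j
  · exact h0
  · exact h1
  · exact h3 j

lemma all_gen (a : A) : Gen (e - 2) a := by
  obtain ⟨k, hk⟩ := he
  obtain ⟨d, h1, h2⟩ := all_U ⟨k, hk⟩ hint k a
  rw [hk, zero_dvd_iff, sub_eq_zero] at h2
  rwa [← h2]

end

/-- In any commutative ring, for nilpotent `e`, the value `2 - e` is reachable. -/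
lemma gen_target {B : Type} [CommRing B] {e : B} (he : IsNilpotent e) : Gen (e - 2) (2 - e) := by
  obtain ⟨k, hk⟩ := he
  let f : AdjoinRoot (Polynomial.X ^ k : Polynomial ℤ) →+* B :=
    AdjoinRoot.lift (Int.castRingHom B) e (by simpa using hk)
  have hf : f (AdjoinRoot.root _) = e := AdjoinRoot.lift_root _
  have h0 : IsNilpotent (AdjoinRoot.root (Polynomial.X ^ k : Polynomial ℤ)) := by
    refine ⟨k, ?_⟩
    rw [← AdjoinRoot.mk_X, ← map_pow, AdjoinRoot.mk_self]
  have h1 := all_gen h0 (fun a => by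
    obtain ⟨p, rfl⟩ := AdjoinRoot.mk_surjective a
    refine ⟨p.coeff 0, AdjoinRoot.mk _ p.divX, ?_⟩
    conv_lhs => rw [← Polynomial.X_mul_divX_add p]
    rw [map_add, map_mul, AdjoinRoot.mk_X, add_comm]
    simp) (2 - AdjoinRoot.root _)
  have := h1.map f
  rwa [map_sub, map_sub, hf, map_ofNat] at this

end Pool.Agent.H.MP_b5bb8b_co
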