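import Mathlib
import Pool.Agent.H.MP_b5bb8b_co.Alg

namespace Pool.Agent.H.MP_b5bb8b_co

open Classical

variable {A : Type} [CommRing A]

def sg (b : Bool) : A := if b then 1 else -1

/-- The graph on `V ⊕ Bool` obtained by adding two roots. -/
def T {V : Type} (G : SimpleGraph V) (c : Bool → V → Prop) : SimpleGraph (V ⊕ Bool) where
  Adj x y := match x, y with
    | .inl v, .inl w => G.Adj v w
    | .inl v, .inr b => c b v
    | .inr b, .inl v => c b v
    | .inr _, .inr _ => False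
  symm := ⟨by
    rintro (v | b) (w | b') h
    · exact G.symm.symm _ _ h
    · exact h
    · exact h
    · exact h⟩
  loopless := ⟨by
    rintro (v | b) h
    · exact G.loopless.irrefl v h
    · exact h⟩

@[simp] lemma T_ll {V : Type} (G : SimpleGraph V) (c : Bool → V → Prop) (v w : V) :
    (T G c).Adj (.inl v) (.inl w) ↔ G.Adj v w := Iff.rfl
@[simp] lemma T_lr {V : Type} (G : SimpleGraph V) (c : Bool → V → Prop) (v : V) (b : Bool) :
    (T G c).Adj (.inl v) (.inr b) ↔ c b v := Iff.rfl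
@[simp] lemma T_rl {V : Type} (G : SimpleGraph V) (c : Bool → V → Prop) (v : V) (b : Bool) :
    (T G c).Adj (.inr b) (.inl v) ↔ c b v := Iff.rfl
@[simp] lemma T_rr {V : Type} (G : SimpleGraph V) (c : Bool → V → Prop) (b b' : Bool) :
    (T G c).Adj (.inr b) (.inr b') ↔ False := Iff.rfl

def Gad (μ D : A) : Prop :=
  ∃ (V : Type) (_ : Fintype V) (G : SimpleGraph V) (c : Bool → V → Prop) (z : V → A),
    (∀ v, (μ ^ 2 - 1) * z v + ((∑ w, if G.Adj v w then z v - μ * z w else 0)
      + ∑ b, if c b v then z v - μ * sg b else 0) = 0) ∧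
    (∀ b, (∑ v, if c b v then sg b - μ * z v else 0) = sg b * D) ∧
    (∀ v, ∃ y y', y ≠ y' ∧ (T G c).Adj (.inl v) y ∧ (T G c).Adj (.inl v) y') ∧
    ∀ b, ∃ v, c b v

lemma gad_one (μ : A) : Gad μ 1 := by
  refine ⟨Unit, inferInstance, ⊥, fun _ _ => True, fun _ => 0, ?_, ?_, ?_, ?_⟩
  · intro v; simp [sg]
  · intro b; simp
  · intro v; exact ⟨.inr true, .inr false, by simp, trivial, trivial⟩
  · intro b; exact ⟨(), trivial⟩

/-- The sum of two gadgets, remembering that each root then has two neighbours. -/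
lemma gad_add' {μ D₁ D₂ : A} (h₁ : Gad μ D₁) (h₂ : Gad μ D₂) :
    ∃ (V : Type) (_ : Fintype V) (G : SimpleGraph V) (c : Bool → V → Prop) (z : V → A),
    (∀ v, (μ ^ 2 - 1) * z v + ((∑ w, if G.Adj v w then z v - μ * z w else 0)
      + ∑ b, if c b v then z v - μ * sg b else 0) = 0) ∧
    (∀ b, (∑ v, if c b v then sg b - μ * z v else 0) = sg b * (D₁ + D₂)) ∧
    (∀ v, ∃ y y', y ≠ y' ∧ (T G c).Adj (.inl v) y ∧ (T G c).Adj (.inl v) y') ∧
    ∀ b, ∃ v v', v ≠ v' ∧ c b v ∧ c b v' := by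
  obtain ⟨V₁, _, G₁, c₁, z₁, a₁, b₁, d₁, e₁⟩ := h₁
  obtain ⟨V₂, _, G₂, c₂, z₂, a₂, b₂, d₂, e₂⟩ := h₂
  refine ⟨V₁ ⊕ V₂, inferInstance, G₁ ⊕g G₂, fun b => Sum.elim (c₁ b) (c₂ b), Sum.elim z₁ z₂,
    ?_, ?_, ?_, ?_⟩
  · rintro (v | v)
    · simpa [Fintype.sum_sum_type] using a₁ v
    · simpa [Fintype.sum_sum_type] using a₂ v
  · intro b
    rw [Fintype.sum_sum_type, mul_add, ← b₁ b, ← b₂ b]
    simp
  · rintro (v | v)
    · obtain ⟨y, y', h, h1, h2⟩ := d₁ v
      refine ⟨Sum.map .inl id y, Sum.map .inl id y', fun he => h ?_, ?_, ?_⟩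
      · exact (Sum.map_injective.mpr ⟨Sum.inl_injective, Function.injective_id⟩) he
      · rcases y with y | y <;> simpa using h1
      · rcases y' with y' | y' <;> simpa using h2
    · obtain ⟨y, y', h, h1, h2⟩ := d₂ v
      refine ⟨Sum.map .inr id y, Sum.map .inr id y', fun he => h ?_, ?_, ?_⟩
      · exact (Sum.map_injective.mpr ⟨Sum.inr_injective, Function.injective_id⟩) he
      · rcases y with y | y <;> simpa using h1
      · rcases y' with y' | y' <;> simpa using h2
  · intro b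
    obtain ⟨v, hv⟩ := e₁ b
    obtain ⟨v', hv'⟩ := e₂ b
    exact ⟨.inl v, .inr v', by simp, hv, hv'⟩

lemma gad_add {μ D₁ D₂ : A} (h₁ : Gad μ D₁) (h₂ : Gad μ D₂) : Gad μ (D₁ + D₂) := by
  obtain ⟨V, _, G, c, z, a, b, d, e⟩ := gad_add' h₁ h₂
  exact ⟨V, inferInstance, G, c, z, a, b, d, fun b => let ⟨v, _, _, h, _⟩ := e b; ⟨v, h⟩⟩

lemma gad_ext {μ D w : A} (h : Gad μ D) (hw : (μ ^ 2 + D) * w = 1) : Gad μ (D * w) := by
  obtain ⟨V, _, G, c, z, a, b, d, e⟩ := h
  refine ⟨V ⊕ Bool, inferInstance, T G c, fun b x => x = .inr b,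
    fun x => μ * w * Sum.elim z sg x, ?_, ?_, ?_, ?_⟩
  · rintro (v | β)
    · have h1 := congrArg (fun t => μ * w * t) (a v)
      simp only [mul_add, Finset.mul_sum, mul_ite, mul_zero] at h1
      rw [Fintype.sum_sum_type]
      simp only [Sum.elim_inl, Sum.elim_inr, T_ll, T_lr, reduceCtorEq, if_false,
        Finset.sum_const_zero, add_zero]
      refine Eq.trans ?_ h1
      congr 1
      · ring
      · congr 1 <;> refine Finset.sum_congr rfl fun x _ => ?_ <;> split_ifs <;> ring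
    · have h1 := congrArg (fun t => μ * w * t) (b β)
      simp only [Finset.mul_sum, mul_ite, mul_zero] at h1
      rw [Fintype.sum_sum_type]
      simp only [Sum.elim_inl, Sum.elim_inr, T_rl, T_rr, if_false, Finset.sum_const_zero, add_zero,
        Sum.inr.injEq, Finset.sum_ite_eq, Finset.mem_univ, if_true]
      have h2 : (∑ x, if c β x then μ * w * sg β - μ * (μ * w * z x) else 0)
          = μ * w * (sg β * D) := by
        rw [← h1]
        refine Finset.sum_congr rfl fun x _ => ?_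
        split_ifs <;> ring
      rw [h2]
      linear_combination (μ * sg β) * hw
  · intro β
    simp only [Finset.sum_ite_eq', Finset.mem_univ, if_true, Sum.elim_inr]
    linear_combination (-sg β) * hw
  · rintro (v | β)
    · obtain ⟨y, y', h, h1, h2⟩ := d v
      exact ⟨.inl y, .inl y', fun he => h (Sum.inl_injective he), h1, h2⟩
    · obtain ⟨v, hv⟩ := e β
      exact ⟨.inl (.inl v), .inr β, by simp, hv, rfl⟩
  · intro β
    exact ⟨.inr β, rfl⟩

lemma Gen.gad {μ D : A} (h : Gen (μ ^ 2) D) : Gad μ D := by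
  induction h with
  | one => exact gad_one μ
  | add _ _ h1 h2 => exact gad_add h1 h2
  | ext _ hw h1 => exact gad_ext h1 hw

/-- A graph of minimum degree at least two with a solution of the vertex equation that takes
the value `1`. -/
lemma exists_graph {μ : A} (h : IsNilpotent (μ ^ 2 + 2)) :
    ∃ (V : Type) (_ : Fintype V) (G : SimpleGraph V) (z : V → A),
      (∀ v, (μ ^ 2 - 1) * z v + (∑ w, if G.Adj v w then z v - μ * z w else 0) = 0) ∧
      (∀ v, ∃ y y', y ≠ y' ∧ G.Adj v y ∧ G.Adj v y') ∧ ∃ v, z v = 1 := by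
  have h1 := gen_target h
  rw [show μ ^ 2 + 2 - 2 = μ ^ 2 by ring] at h1
  obtain ⟨V, _, G, c, z, a, b, d, e⟩ := gad_add' (gad_one μ) h1.gad
  refine ⟨V ⊕ Bool, inferInstance, T G c, Sum.elim z sg, ?_, ?_, .inr true, by simp [sg]⟩
  · rintro (v | β)
    · rw [Fintype.sum_sum_type]
      exact a v
    · rw [Fintype.sum_sum_type]
      simp only [Sum.elim_inl, Sum.elim_inr, T_rl, T_rr, if_false, Finset.sum_const_zero, add_zero]
      rw [b β]
      ring
  · rintro (v | β)
    · exact d v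
    · obtain ⟨v, v', h, h1, h2⟩ := e β
      exact ⟨.inl v, .inl v', fun he => h (Sum.inl_injective he), h1, h2⟩

end Pool.Agent.H.MP_b5bb8b_co
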